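import Pool.Agent.helper93.TV.Spec2

/-! Row SB (three-fold combs, second expansion). -/

namespace Pool.Agent.helper93.TV

set_option linter.unusedSectionVars false

open BigOperators Finset Matrix

variable {I V : Type} [Fintype I] [DecidableEq I] [Fintype V] [DecidableEq V]

theorem SB_iter_add (D : FD I V) (X : Finset I) (c : V → V → V → V → ℂ) (n n' : ℕ)
    (T S : List V → List V → ℂ) (k : ℕ) :
    D.iter X c n n' (fun p q => T p q + S p q) k =
      fun b p q => D.iter X c n n' T k b p q + D.iter X c n n' S k b p q := by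
  induction k with
  | zero =>
    funext a p q
    simp only [FD.iter]
    split_ifs <;> simp
  | succ k ih =>
    funext b p q
    simp only [FD.iter, FD.step, ih, mul_add, add_mul, Finset.sum_add_distrib]

theorem SB_iter_smul (D : FD I V) (X : Finset I) (c : V → V → V → V → ℂ) (n n' : ℕ)
    (x : ℂ) (T : List V → List V → ℂ) (k : ℕ) :
    D.iter X c n n' (fun p q => x * T p q) k =
      fun b p q => x * D.iter X c n n' T k b p q := by
  induction k with
  | zero =>
    funext a p q
    simp only [FD.iter]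
    split_ifs <;> simp
  | succ k ih =>
    funext b p q
    simp only [FD.iter, FD.step, ih, Finset.mul_sum]
    refine Finset.sum_congr rfl fun l _ => Finset.sum_congr rfl fun p' _ =>
      Finset.sum_congr rfl fun q' _ => Finset.sum_congr rfl fun l' _ => ?_
    ring

theorem SB_iter_zero (D : FD I V) (X : Finset I) (c : V → V → V → V → ℂ) (n n' : ℕ) (k : ℕ) :
    D.iter X c n n' (fun _ _ => 0) k = fun _ _ _ => 0 := by
  have h := SB_iter_smul D X c n n' 0 (fun _ _ => 0) k
  simp only [zero_mul] at h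
  exact h

theorem SB_Phi_sum {ι : Type*} (D : FD I V) (X : Finset I) (c : V → V → V → V → ℂ) (m n n' : ℕ)
    (s : Finset ι) (x : ι → ℂ) (T : ι → List V → List V → ℂ) (b : I) (p q : List V) :
    D.Phi X c m n n' (fun p q => ∑ i ∈ s, x i * T i p q) b p q =
      ∑ i ∈ s, x i * D.Phi X c m n n' (T i) b p q := by
  classical
  induction s using Finset.induction_on with
  | empty =>
    simp only [Finset.sum_empty, FD.Phi, SB_iter_zero, zero_div]
  | insert i s hi ih =>
    have e : (fun p q => ∑ j ∈ insert i s, x j * T j p q) =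
        fun p q => x i * T i p q + ∑ j ∈ s, x j * T j p q := by
      funext p q
      rw [Finset.sum_insert hi]
    rw [Finset.sum_insert hi, ← ih, e]
    simp only [FD.Phi, SB_iter_add, SB_iter_smul]
    ring

theorem SB_take {m : ℕ} {p : List V} (q : List V) (h : p ∈ lists V m) :
    (p ++ q).take m = p := by
  rw [mem_lists] at h
  subst h
  simp

theorem SB_drop {m : ℕ} {p : List V} (q : List V) (h : p ∈ lists V m) :
    (p ++ q).drop m = q := by
  rw [mem_lists] at h
  subst h
  simp

theorem SB_rt (D : FD I V) (X : Finset I) (m n' : ℕ) (ψ : I → List V → List V → ℂ) (a : I)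
    {p : List V} (q w : List V) (hp : p ∈ lists V m) (h : q = w.drop n') (hq : q ∈ lists V m)
    (hok : D.ok X (D.en a p) q) :
    D.rtens X m n' m ψ a (p ++ q) w = ψ a p (w.take n') := by
  have hc : (p ++ q).drop m = w.drop n' ∧ (p ++ q).drop m ∈ lists V m ∧
      D.ok X (D.en a ((p ++ q).take m)) ((p ++ q).drop m) := by
    rw [SB_take q hp, SB_drop q hp]; exact ⟨h, hq, hok⟩
  simp only [FD.rtens]
  rw [if_pos hc, SB_take q hp]

theorem SB_rt0 (D : FD I V) (X : Finset I) (m n' : ℕ) (ψ : I → List V → List V → ℂ) (a : I)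
    {p : List V} (q w : List V) (hp : p ∈ lists V m)
    (h : ¬ (q = w.drop n' ∧ q ∈ lists V m ∧ D.ok X (D.en a p) q)) :
    D.rtens X m n' m ψ a (p ++ q) w = 0 := by
  have hc : ¬ ((p ++ q).drop m = w.drop n' ∧ (p ++ q).drop m ∈ lists V m ∧
      D.ok X (D.en a ((p ++ q).take m)) ((p ++ q).drop m)) := by
    rw [SB_take q hp, SB_drop q hp]; exact h
  simp only [FD.rtens]
  rw [if_neg hc]

theorem SB_Tb (D : FD I V) (m : ℕ) (bp : I → List V) (J : V → List V → ℂ) (σ : V)
    (p : List V) {p' : List V} (q' : List V) (hp' : p' ∈ lists V m) :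
    D.Tb m bp J σ p (p' ++ q') =
      if p = bp (D.t σ) ∧ p' = bp (D.s1 σ) then J σ q' else 0 := by
  simp only [FD.Tb]
  rw [SB_take q' hp', SB_drop q' hp']

theorem SB_Lv (m : ℕ) (J : V → List V → ℂ) (α γ : V) {p : List V} (q : List V)
    (hp : p ∈ lists V m) : Lv m J α γ (p ++ q) = J α p * J γ q := by
  simp only [Lv]
  rw [SB_take q hp, SB_drop q hp]

theorem SB_sum2 {M : Type*} [AddCommMonoid M] (m : ℕ) (f : List V → M) :
    ∑ w ∈ lists V (2 * m), f w = ∑ p ∈ lists V m, ∑ q ∈ lists V m, f (p ++ q) := by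
  rw [two_mul, sum_lists_add]

/-- The operator T ⊗ 1 at the unit object. -/
theorem SB_op (D : FD I V) (X : Finset I) (m : ℕ) (T : List V → List V → ℂ)
    (hT : D.Op X m (2 * m) T) :
    D.Op X (2 * m) (3 * m) (D.rtens X m (2 * m) m (fun _ => T) D.o) := by
  intro w w' h
  simp only [FD.rtens] at h
  split_ifs at h with hc
  · obtain ⟨h1, h2, h3⟩ := hc
    obtain ⟨s1, s2, s3, s4, s5⟩ := hT _ _ h
    have h2' : w'.drop (2 * m) ∈ lists V m := h1 ▸ h2
    rw [mem_lists] at s1 s2 h2 h2'
    have e1 : w = w.take m ++ w.drop m := (List.take_append_drop m w).symm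
    have e2 : w' = w'.take (2 * m) ++ w'.drop (2 * m) := (List.take_append_drop (2 * m) w').symm
    refine ⟨?_, ?_, ?_, ?_, ?_⟩
    · rw [mem_lists, e1, List.length_append, s1, h2]; omega
    · rw [mem_lists, e2, List.length_append, s2, h2']; omega
    · rw [e1, ok_append]; exact ⟨s3, h3⟩
    · rw [e2, ok_append, ← h1, ← s5]; exact ⟨s4, h3⟩
    · rw [e1, e2, en_append, en_append, ← h1, s5]
  · exact absurd rfl h

/-- The composition of T σ with T μ ⊗ 1 at the unit object. -/
theorem SB_comp (D : FD I V) (X : Finset I) (c : V → V → V → V → ℂ) (m : ℕ)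
    (bp : I → List V) (J : V → List V → ℂ) (hctx : D.Ctx X c m bp) (hJ : D.JS X c m bp J)
    (μ σ : V) (hμσ : D.t μ = D.s1 σ) (p w : List V) :
    ∑ w₁ ∈ lists V (2 * m), D.Tb m bp J σ p w₁ *
      D.rtens X m (2 * m) m (fun _ => D.Tb m bp J μ) D.o w₁ w =
      if w ∈ lists V (3 * m) ∧ p = bp (D.t σ) ∧ w.take m = bp (D.s1 μ) then
        Lv m J μ σ (w.drop m) else 0 := by
  obtain ⟨b1, b2, b3⟩ := hctx.base (D.s1 σ)
  have hpos := hctx.pos
  rw [SB_sum2]
  have step : ∀ p' ∈ lists V m, ∑ q' ∈ lists V m, D.Tb m bp J σ p (p' ++ q') *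
      D.rtens X m (2 * m) m (fun _ => D.Tb m bp J μ) D.o (p' ++ q') w =
      if p' = bp (D.s1 σ) then (if w ∈ lists V (3 * m) ∧ p = bp (D.t σ) ∧
        w.take m = bp (D.s1 μ) then Lv m J μ σ (w.drop m) else 0) else 0 := by
    intro p' hp'
    split_ifs with h h'
    · -- main case
      obtain ⟨hw, hp, hwm⟩ := h'
      have hwl : w.length = 3 * m := mem_lists.1 hw
      have hq : w.drop (2 * m) ∈ lists V m := by
        rw [mem_lists, List.length_drop, hwl]; omega
      have hone : ∀ q' ∈ lists V m, D.Tb m bp J σ p (p' ++ q') *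
          D.rtens X m (2 * m) m (fun _ => D.Tb m bp J μ) D.o (p' ++ q') w =
          if q' = w.drop (2 * m) then Lv m J μ σ (w.drop m) else 0 := by
        intro q' hq'
        have e1 : (w.take (2 * m)).take m = w.take m := by
          rw [List.take_take]; congr 1; omega
        have e2 : (w.take (2 * m)).drop m = (w.drop m).take m := by
          rw [List.drop_take]; congr 1; omega
        have e3 : (w.drop m).drop m = w.drop (2 * m) := by
          rw [List.drop_drop]; congr 1; omega
        split_ifs with hqe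
        · by_cases hz : J σ q' = 0
          · rw [SB_Tb D m bp J σ p q' hp', if_pos ⟨hp, h⟩, hz, zero_mul]
            simp only [Lv]
            rw [e3, ← hqe, hz, mul_zero]
          · obtain ⟨_, j2, j3⟩ := hJ.supp σ q' hz
            rw [SB_Tb D m bp J σ p q' hp', if_pos ⟨hp, h⟩,
              SB_rt D X m (2 * m) _ D.o q' w hp' hqe hq' (by rw [h, b3]; exact j2)]
            simp only [FD.Tb]
            rw [if_pos ⟨by rw [h, hμσ], by rw [e1]; exact hwm⟩]
            simp only [Lv]
            rw [e2, e3, ← hqe]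
            ring
        · rw [SB_rt0 D X m (2 * m) _ D.o q' w hp' (fun hh => hqe hh.1), mul_zero]
      rw [Finset.sum_congr rfl hone, Finset.sum_ite_eq' (lists V m) (w.drop (2 * m))]
      simp [hq]
    · -- zero case
      refine Finset.sum_eq_zero fun q' hq' => ?_
      rw [SB_Tb D m bp J σ p q' hp']
      by_cases h1 : p = bp (D.t σ) ∧ p' = bp (D.s1 σ)
      · rw [if_pos h1]
        by_cases h2 : q' = w.drop (2 * m) ∧ q' ∈ lists V m ∧ D.ok X (D.en D.o p') q'
        · rw [SB_rt D X m (2 * m) _ D.o q' w hp' h2.1 h2.2.1 h2.2.2]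
          have hwl : w ∈ lists V (3 * m) := by
            have h3 := h2.2.1
            rw [mem_lists, h2.1, List.length_drop] at h3
            rw [mem_lists]; omega
          have e1 : (w.take (2 * m)).take m = w.take m := by
            rw [List.take_take]; congr 1; omega
          have h4 : ¬ (p' = bp (D.t μ) ∧ (w.take (2 * m)).take m = bp (D.s1 μ)) := by
            rintro ⟨_, h5⟩
            rw [e1] at h5
            exact h' ⟨hwl, h1.1, h5⟩
          simp only [FD.Tb]
          rw [if_neg h4, mul_zero]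
        · rw [SB_rt0 D X m (2 * m) _ D.o q' w hp' h2, mul_zero]
      · rw [if_neg h1, zero_mul]
    · refine Finset.sum_eq_zero fun q' _ => ?_
      rw [SB_Tb D m bp J σ p q' hp', if_neg (fun hh => h hh.2), zero_mul]
  rw [Finset.sum_congr rfl step, Finset.sum_ite_eq' (lists V m) (bp (D.s1 σ))]
  simp [b1]

theorem SB : SB_stmt := by
  intro hSR hSL hSC hSE I V _ _ _ _ D X c m bp J hctx hcalc hJ μ ρ ε w hμ hρ hw
  have hop := (hSR I V D X c m bp J hctx hcalc hJ).1
  have hexp := hSE I V D X c m bp J hctx hcalc hJ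
  have hRs := (hSL I V D X c m bp J hctx hcalc hJ).2.2
  have hpos := hctx.pos
  have hwl : w.length = 3 * m := mem_lists.1 hw
  obtain ⟨P, hP⟩ : ∃ P, P = D.Phi X c m m (2 * m) (D.Tb m bp J μ) := ⟨_, rfl⟩
  -- the left side
  have hwd : w.drop (2 * m) ∈ lists V m := by
    rw [mem_lists, List.length_drop, hwl]; omega
  have hL : D.Rv X c m bp J μ ρ (w.take (2 * m)) * J ε (w.drop (2 * m)) =
      ∑ w₁ ∈ lists V (2 * m), Lv m J ρ ε w₁ * D.rtens X m (2 * m) m P (D.s1 ρ) w₁ w := by
    rw [SB_sum2]
    have step : ∀ p ∈ lists V m, ∑ q ∈ lists V m, Lv m J ρ ε (p ++ q) *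
        D.rtens X m (2 * m) m P (D.s1 ρ) (p ++ q) w =
        J ρ p * P (D.s1 ρ) p (w.take (2 * m)) * J ε (w.drop (2 * m)) := by
      intro p hp
      have hone : ∀ q ∈ lists V m, Lv m J ρ ε (p ++ q) *
          D.rtens X m (2 * m) m P (D.s1 ρ) (p ++ q) w =
          if q = w.drop (2 * m) then
            J ρ p * P (D.s1 ρ) p (w.take (2 * m)) * J ε (w.drop (2 * m)) else 0 := by
        intro q hq
        split_ifs with hqe
        · rw [SB_Lv m J ρ ε q hp]
          by_cases hz : J ρ p = 0
          · rw [hz]; ring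
          · by_cases hz' : J ε q = 0
            · rw [← hqe, hz']; ring
            · obtain ⟨_, j2, j3⟩ := hJ.supp ρ p hz
              obtain ⟨_, k2, k3⟩ := hJ.supp ε q hz'
              rw [SB_rt D X m (2 * m) P (D.s1 ρ) q w hp hqe hq (by rw [j3, hρ]; exact k2),
                ← hqe]
              ring
        · rw [SB_rt0 D X m (2 * m) P (D.s1 ρ) q w hp (fun hh => hqe hh.1), mul_zero]
      rw [Finset.sum_congr rfl hone, Finset.sum_ite_eq' (lists V m) (w.drop (2 * m))]
      simp [hwd]
    rw [Finset.sum_congr rfl step, FD.Rv, Finset.sum_mul, hP]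
  -- the inner sums
  have hR : ∀ σ ζ, D.s1 ζ = D.s1 ρ → D.t μ = D.s1 σ →
      ∑ w₁ ∈ lists V (2 * m), D.Rv X c m bp J σ ζ w₁ *
        D.rtens X m (2 * m) m P (D.s1 ρ) w₁ w =
        ∑ β, ∑ δ, D.form X c m bp J μ σ β δ * D.RR X c m bp J β δ ζ w := by
    intro σ ζ hζ hμσ
    have hS := SB_op D X m _ (hop μ)
    have hrt := hcalc.rt m (2 * m) m (by omega) (by omega) _ (hop μ)
    rw [show m + m = 2 * m by omega, show 2 * m + m = 3 * m by omega, ← hP] at hrt
    have hmul := hcalc.mul m (by omega) (2 * m) (by omega) (3 * m) (by omega) _ _ (hop σ) hS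
    have hcomp : (fun p q => ∑ w₁ ∈ lists V (2 * m), D.Tb m bp J σ p w₁ *
        D.rtens X m (2 * m) m (fun _ => D.Tb m bp J μ) D.o w₁ q) =
        fun p q => ∑ x ∈ (univ : Finset (V × V)), D.form X c m bp J μ σ x.1 x.2 *
          D.Tbb X c m bp J x.1 x.2 p q := by
      funext p q
      rw [SB_comp D X c m bp J hctx hJ μ σ hμσ p q]
      have hval : ∀ β δ, D.form X c m bp J μ σ β δ * D.Tbb X c m bp J β δ p q =
          if q ∈ lists V (3 * m) ∧ p = bp (D.t σ) ∧ q.take m = bp (D.s1 μ) then
            D.form X c m bp J μ σ β δ * D.Rv X c m bp J β δ (q.drop m) else 0 := by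
        intro β δ
        by_cases hz : D.form X c m bp J μ σ β δ = 0
        · rw [hz]; simp
        · have hcp : D.cp μ σ β δ := by
            by_contra hn
            exact hz (by simp [FD.form, hn])
          obtain ⟨c1, c2, c3, c4, c5, c6⟩ := hcp
          simp only [FD.Tbb]
          rw [← c6, ← c3]
          by_cases hc : p = bp (D.t σ) ∧ q.take m = bp (D.s1 μ)
          · rw [if_pos hc]
            by_cases hq : q ∈ lists V (3 * m)
            · rw [if_pos ⟨hq, hc⟩]
            · rw [if_neg (fun h => hq h.1)]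
              have h0 : D.Rv X c m bp J β δ (q.drop m) = 0 := by
                by_contra hn
                have h1 := (hRs β δ _ hn).1
                rw [mem_lists, List.length_drop] at h1
                apply hq
                rw [mem_lists]; omega
              rw [h0, mul_zero]
          · rw [if_neg hc, if_neg (fun h => hc h.2), mul_zero]
      rw [← Finset.univ_product_univ, Finset.sum_product]
      simp only [hval]
      by_cases hc : q ∈ lists V (3 * m) ∧ p = bp (D.t σ) ∧ q.take m = bp (D.s1 μ)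
      · simp only [if_pos hc]
        have hq2 : q.drop m ∈ lists V (2 * m) := by
          have := mem_lists.1 hc.1
          rw [mem_lists, List.length_drop]; omega
        exact hexp μ σ (q.drop m) hμσ hq2
      · simp only [if_neg hc, Finset.sum_const_zero]
    rw [hcomp, hrt] at hmul
    have hPhi : ∀ p, ∑ w₁ ∈ lists V (2 * m), D.Phi X c m m (2 * m) (D.Tb m bp J σ) (D.s1 ρ) p w₁ *
        D.rtens X m (2 * m) m P (D.s1 ρ) w₁ w =
        ∑ β, ∑ δ, D.form X c m bp J μ σ β δ *
          D.Phi X c m m (3 * m) (D.Tbb X c m bp J β δ) (D.s1 ρ) p w := by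
      intro p
      have h1 := congrFun (congrFun (congrFun hmul (D.s1 ρ)) p) w
      rw [SB_Phi_sum, ← Finset.univ_product_univ, Finset.sum_product] at h1
      exact h1.symm
    have e1 : ∑ w₁ ∈ lists V (2 * m), D.Rv X c m bp J σ ζ w₁ *
        D.rtens X m (2 * m) m P (D.s1 ρ) w₁ w =
        ∑ p ∈ lists V m, J ζ p * ∑ w₁ ∈ lists V (2 * m),
          D.Phi X c m m (2 * m) (D.Tb m bp J σ) (D.s1 ρ) p w₁ *
          D.rtens X m (2 * m) m P (D.s1 ρ) w₁ w := by
      simp only [FD.Rv, hζ, Finset.sum_mul, Finset.mul_sum]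
      rw [Finset.sum_comm]
      exact Finset.sum_congr rfl fun p _ => Finset.sum_congr rfl fun w₁ _ => by ring
    rw [e1]
    simp only [hPhi, FD.RR, hζ, Finset.mul_sum]
    rw [Finset.sum_comm]
    refine Finset.sum_congr rfl fun β _ => ?_
    rw [Finset.sum_comm]
    exact Finset.sum_congr rfl fun δ _ => Finset.sum_congr rfl fun p _ => by ring
  rw [hL]
  calc ∑ w₁ ∈ lists V (2 * m), Lv m J ρ ε w₁ * D.rtens X m (2 * m) m P (D.s1 ρ) w₁ w
      = ∑ w₁ ∈ lists V (2 * m), ∑ σ, ∑ ζ, D.form X c m bp J ρ ε σ ζ *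
          (D.Rv X c m bp J σ ζ w₁ * D.rtens X m (2 * m) m P (D.s1 ρ) w₁ w) := by
        refine Finset.sum_congr rfl fun w₁ hw₁ => ?_
        rw [hexp ρ ε w₁ hρ hw₁, Finset.sum_mul]
        refine Finset.sum_congr rfl fun σ _ => ?_
        rw [Finset.sum_mul]
        exact Finset.sum_congr rfl fun ζ _ => by ring
    _ = ∑ σ, ∑ ζ, D.form X c m bp J ρ ε σ ζ *
          ∑ w₁ ∈ lists V (2 * m), D.Rv X c m bp J σ ζ w₁ *
            D.rtens X m (2 * m) m P (D.s1 ρ) w₁ w := by
        rw [Finset.sum_comm]
        refine Finset.sum_congr rfl fun σ _ => ?_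
        rw [Finset.sum_comm]
        exact Finset.sum_congr rfl fun ζ _ => by rw [Finset.mul_sum]
    _ = ∑ σ, ∑ ζ, ∑ β, ∑ δ, D.form X c m bp J ρ ε σ ζ * D.form X c m bp J μ σ β δ *
          D.RR X c m bp J β δ ζ w := by
        refine Finset.sum_congr rfl fun σ _ => Finset.sum_congr rfl fun ζ _ => ?_
        by_cases hz : D.form X c m bp J ρ ε σ ζ = 0
        · simp [hz]
        · have hcp : D.cp ρ ε σ ζ := by
            by_contra hn
            exact hz (by simp [FD.form, hn])
          rw [hR σ ζ hcp.2.2.1.symm (hμ.trans hcp.2.2.2.1), Finset.mul_sum]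
          refine Finset.sum_congr rfl fun β _ => ?_
          rw [Finset.mul_sum]
          exact Finset.sum_congr rfl fun δ _ => by ring

end Pool.Agent.helper93.TV
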